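import Pool.Agent.H20.GKKEx
import Pool.Agent.H20.GKKLow

open scoped ComplexOrder
open Pool.Agent.H20.GKK

namespace Pool.Agent.Results.MP_ba9f40_al.NewtonFails

theorem result : ∃ (n : ℕ) (A : Matrix (Fin n) (Fin n) ℂ) (j : ℕ),
    IsGKK A ∧ IsTau A ∧ IsStable A ∧ 1 ≤ j ∧ j + 1 ≤ n ∧
      coef A j ^ 2 < coef A (j - 1) * coef A (j + 1) :=
  ⟨4, mat 4 Z4, 2, gkk4, tau4, stab4 _ gkk4, by norm_num, by norm_num, newton4⟩

end Pool.Agent.Results.MP_ba9f40_al.NewtonFails
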